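import Mathlib

namespace Pool.Agent.H.MP_530d8e_an

open Set Function Filter Topology
open scoped RealInnerProductSpace

variable {E : Type*} [NormedAddCommGroup E] [InnerProductSpace ℝ E]

abbrev V (E : Type*) := WithLp 2 (E × ℝ)

def mk (x : E) (s : ℝ) : V E := WithLp.toLp 2 (x, s)

omit [NormedAddCommGroup E] [InnerProductSpace ℝ E] in
@[simp] theorem mk_fst (x : E) (s : ℝ) : (mk x s).fst = x := rfl
omit [NormedAddCommGroup E] [InnerProductSpace ℝ E] in
@[simp] theorem mk_snd (x : E) (s : ℝ) : (mk x s).snd = s := rfl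
omit [NormedAddCommGroup E] [InnerProductSpace ℝ E] in
theorem vext {v w : V E} (h1 : v.fst = w.fst) (h2 : v.snd = w.snd) : v = w :=
  WithLp.ofLp_injective 2 (Prod.ext h1 h2)

theorem inn (v w : V E) : ⟪v, w⟫ = ⟪v.fst, w.fst⟫ + v.snd * w.snd := by
  rw [WithLp.prod_inner_apply]; simp [mul_comm]

omit [InnerProductSpace ℝ E] in
theorem cmk {X : Type*} [TopologicalSpace X] {a : X → E} {b : X → ℝ} (ha : Continuous a)
    (hb : Continuous b) : Continuous fun x => mk (a x) (b x) :=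
  (WithLp.prod_continuous_toLp 2 E ℝ).comp (ha.prodMk hb)

def K (f : E → ℝ) : Set (V E) := {v | ∀ y : E, ∀ t : ℝ, 0 ≤ t → f (y + t • v.fst) ≤ f y + t * v.snd}

theorem sgn {X : Type*} [TopologicalSpace X] [PreconnectedSpace X] (H : X → ℝ) (hc : Continuous H)
    (h0 : ∀ x, H x ≠ 0) : (∀ x, 0 < H x) ∨ ∀ x, H x < 0 := by
  by_contra h
  push Not at h
  obtain ⟨⟨a, ha⟩, b, hb⟩ := h
  obtain ⟨x, hx⟩ := intermediate_value_univ a b hc ⟨ha, hb⟩
  exact h0 x hx

theorem Kiff (g : E → ℝ) (ε : ℝ) (hε : ε = 1 ∨ ε = -1) (v : V E) : ε • v ∈ K g ↔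
    ∀ p : V E, 0 ≤ ε * (p.snd - g p.fst) → ∀ t : ℝ, 0 ≤ t →
      0 ≤ ε * ((p + t • v).snd - g (p + t • v).fst) := by
  rcases hε with rfl | rfl
  · simp only [one_smul, one_mul, WithLp.add_fst, WithLp.add_snd, WithLp.smul_fst, WithLp.smul_snd,
      smul_eq_mul]
    refine ⟨fun h p hp t ht => by have := h p.fst t ht; linarith, fun h y t ht => ?_⟩
    have := h (mk y (g y)) (by simp) t ht
    simp only [mk_fst, mk_snd] at this
    linarith
  · simp only [WithLp.add_fst, WithLp.add_snd, WithLp.smul_fst, WithLp.smul_snd, smul_eq_mul]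
    refine ⟨fun h p hp t ht => ?_, fun h y t ht => ?_⟩
    · have := h (p.fst + t • v.fst) t ht
      simp only [WithLp.smul_fst, WithLp.smul_snd, smul_eq_mul, neg_smul, one_smul, smul_neg,
        WithLp.neg_fst, WithLp.neg_snd, add_neg_cancel_right] at this
      linarith
    · have := h (mk (y + -(t • v.fst)) (g (y + -(t • v.fst)))) (by simp) t ht
      simp only [mk_fst, mk_snd, neg_add_cancel_right] at this
      simp only [WithLp.smul_fst, WithLp.smul_snd, smul_eq_mul, neg_smul, one_smul, smul_neg,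
        WithLp.neg_fst, WithLp.neg_snd]
      linarith

theorem stepA (f g : E → ℝ) (hf : Continuous f) (hg : Continuous g) (φ : V E ≃ᵢ V E)
    (hφ : ∀ p : V E, p.snd = f p.fst ↔ (φ p).snd = g (φ p).fst) :
    ∃ A : V E ≃ₗᵢ[ℝ] V E, (∀ v, v ∈ K f ↔ A v ∈ K g) ∧
      ∃ ε : ℝ, |ε| = 1 ∧ ∀ p q, φ p - φ q = ε • A (p - q) := by
  set G : V E → ℝ := fun p => (φ p).snd - g (φ p).fst with hG
  have cG : Continuous G := by
    have := φ.continuous
    simp only [hG]; fun_prop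
  have z : ∀ p : V E, p.snd - f p.fst = 0 ↔ G p = 0 := fun p => by simp only [hG, sub_eq_zero, hφ]
  have key : ∀ η : ℝ, η = 1 ∨ η = -1 → (∀ p : V E, 0 < η * (p.snd - f p.fst) → 0 < G p) ∨
      ∀ p : V E, 0 < η * (p.snd - f p.fst) → G p < 0 := by
    intro η hη
    have h2 : η * η = 1 := by rcases hη with rfl | rfl <;> norm_num
    have h3 : η ≠ 0 := by rcases hη with rfl | rfl <;> norm_num
    have e : ∀ p : V E, 0 < η * (p.snd - f p.fst) →
        p = mk p.fst (f p.fst + η * Real.exp (Real.log (η * (p.snd - f p.fst)))) := fun p hp => by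
      refine vext rfl ?_
      rw [Real.exp_log hp, mk_snd, ← mul_assoc, h2]; ring
    rcases sgn (fun a : E × ℝ => G (mk a.1 (f a.1 + η * Real.exp a.2)))
      (cG.comp (cmk continuous_fst (by fun_prop))) (fun a h => by
        have := (z _).2 h
        simp [h3] at this) with h | h
    · exact Or.inl fun p hp => by rw [e p hp]; exact h (p.fst, Real.log (η * (p.snd - f p.fst)))
    · exact Or.inr fun p hp => by rw [e p hp]; exact h (p.fst, Real.log (η * (p.snd - f p.fst)))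
  obtain ⟨ε, hε, hs⟩ : ∃ ε : ℝ, (ε = 1 ∨ ε = -1) ∧ ∀ p : V E, 0 ≤ p.snd - f p.fst ↔ 0 ≤ ε * G p := by
    have g1 : G (φ.symm (mk 0 (g 0 + 1))) = 1 := by simp [hG]
    have g2 : G (φ.symm (mk 0 (g 0 - 1))) = -1 := by simp [hG]
    rcases key 1 (Or.inl rfl) with h1 | h1 <;> rcases key (-1) (Or.inr rfl) with h2 | h2
    · exfalso
      rcases lt_trichotomy ((φ.symm (mk 0 (g 0 - 1))).snd - f (φ.symm (mk 0 (g 0 - 1))).fst) 0 with h | h | h
      · have := h2 _ (by linarith); linarith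
      · have := (z _).1 h; linarith
      · have := h1 _ (by linarith); linarith
    · refine ⟨1, Or.inl rfl, fun p => ?_⟩
      rcases lt_trichotomy (p.snd - f p.fst) 0 with h | h | h
      · have := h2 p (by linarith); constructor <;> intro <;> linarith
      · have := (z p).1 h; constructor <;> intro <;> linarith
      · have := h1 p (by linarith); constructor <;> intro <;> linarith
    · refine ⟨-1, Or.inr rfl, fun p => ?_⟩
      rcases lt_trichotomy (p.snd - f p.fst) 0 with h | h | h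
      · have := h2 p (by linarith); constructor <;> intro <;> linarith
      · have := (z p).1 h; constructor <;> intro <;> linarith
      · have := h1 p (by linarith); constructor <;> intro <;> linarith
    · exfalso
      rcases lt_trichotomy ((φ.symm (mk 0 (g 0 + 1))).snd - f (φ.symm (mk 0 (g 0 + 1))).fst) 0 with h | h | h
      · have := h2 _ (by linarith); linarith
      · have := (z _).1 h; linarith
      · have := h1 _ (by linarith); linarith
  set A := φ.toRealLinearIsometryEquiv with hA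
  have hAp : ∀ p q, φ p - φ q = A (p - q) := fun p q => by
    rw [map_sub, hA, φ.toRealLinearIsometryEquiv_apply, φ.toRealLinearIsometryEquiv_apply]; abel
  have hAt : ∀ p v (t : ℝ), φ (p + t • v) = φ p + t • A v := fun p v t => by
    have := hAp (p + t • v) p
    rw [add_sub_cancel_left, map_smul] at this
    rw [← this]; abel
  have main : ∀ v, v ∈ K f ↔ ε • A v ∈ K g := fun v => by
    rw [Kiff g ε hε, ← one_smul ℝ v, Kiff f 1 (Or.inl rfl), one_smul]
    simp only [one_mul, hs, hG, hAt]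
    exact ⟨fun h p => by simpa using h (φ.symm p), fun h p => h (φ p)⟩
  rcases hε with rfl | rfl
  · exact ⟨A, by simpa using main, 1, by simp, by simpa using hAp⟩
  · exact ⟨A.trans (LinearIsometryEquiv.neg ℝ), by simpa using main, -1, by simp, by simpa using hAp⟩

def S {W : Type*} [NormedAddCommGroup W] [InnerProductSpace ℝ W] (Q : Set W) : Set W :=
  {u | ‖u‖ = 1 ∧ u ∈ Q ∧ ∀ v ∈ Q, 0 ≤ ⟪v, u⟫ ∧ v - ⟪v, u⟫ • u ∈ Q}

theorem Sfin {W : Type*} [NormedAddCommGroup W] [InnerProductSpace ℝ W] [FiniteDimensional ℝ W]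
    (Q : Set W) : (S Q).Finite := by
  classical
  refine LinearIndependent.set_finite_of_isNoetherian (R := ℝ) (Orthonormal.linearIndependent ?_)
  rw [orthonormal_subtype_iff_ite]
  rintro w ⟨w1, w2, w3⟩ u ⟨u1, u2, u3⟩
  split_ifs with h
  · rw [h, real_inner_self_eq_norm_sq, u1]; norm_num
  · obtain ⟨a0, a1⟩ := u3 w w2
    have a2 := (u3 _ (w3 _ a1).2).1
    have e1 : ⟪u, u⟫ = (1 : ℝ) := by rw [real_inner_self_eq_norm_sq, u1]; norm_num
    have e2 : ⟪w, w⟫ = (1 : ℝ) := by rw [real_inner_self_eq_norm_sq, w1]; norm_num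
    simp only [inner_sub_left, real_inner_smul_left, e1, e2, real_inner_comm w u] at a2
    have a3 : ⟪w, u⟫ < 1 := (inner_lt_one_iff_real_of_norm_eq_one w1 u1).2 h
    by_contra h0
    have a4 : 0 < ⟪w, u⟫ := lt_of_le_of_ne a0 (Ne.symm h0)
    have : 0 < ⟪w, u⟫ * (1 - ⟪w, u⟫ * ⟪w, u⟫) := mul_pos a4 (by nlinarith)
    nlinarith

theorem Smap {W : Type*} [NormedAddCommGroup W] [InnerProductSpace ℝ W] {Q Q' : Set W}
    (A : W ≃ₗᵢ[ℝ] W) (h : ∀ v, v ∈ Q ↔ A v ∈ Q') {u : W} (hu : u ∈ S Q) : A u ∈ S Q' := by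
  refine ⟨by rw [A.norm_map, hu.1], (h u).1 hu.2.1, fun v hv => ?_⟩
  obtain ⟨v, rfl⟩ := A.surjective v
  obtain ⟨a, b⟩ := hu.2.2 v ((h v).2 hv)
  rw [A.inner_map_map, ← map_smul, ← map_sub]
  exact ⟨a, (h _).1 b⟩

theorem Kadd {f : E → ℝ} {v w : V E} (hv : v ∈ K f) (hw : w ∈ K f) : v + w ∈ K f := fun y t ht => by
  have h1 := hv y t ht
  have h2 := hw (y + t • v.fst) t ht
  simp only [WithLp.add_fst, WithLp.add_snd, smul_add, ← add_assoc]
  linarith

theorem Ksmul {f : E → ℝ} {v : V E} (hv : v ∈ K f) {r : ℝ} (hr : 0 ≤ r) : r • v ∈ K f :=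
  fun y t ht => by
    have h1 := hv y (t * r) (mul_nonneg ht hr)
    simpa only [WithLp.smul_fst, WithLp.smul_snd, smul_smul, smul_eq_mul, mul_assoc] using h1

theorem Kup (f : E → ℝ) {s : ℝ} (hs : 0 ≤ s) : mk 0 s ∈ K f := fun y t ht => by
  simpa using mul_nonneg ht hs

theorem Kcl {f : E → ℝ} (hf : Continuous f) : IsClosed (K f) := by
  simp only [K, setOf_forall]
  exact isClosed_iInter fun y => isClosed_iInter fun t => isClosed_iInter fun _ =>
    isClosed_le (by fun_prop) (by fun_prop)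

theorem Kc (f : E → ℝ) {c : ℝ} (hc : 0 < c) (v : V E) :
    v ∈ K (fun x => f (c • x)) ↔ mk v.fst (c⁻¹ * v.snd) ∈ K f := by
  constructor
  · intro h y t ht
    have := h (c⁻¹ • y) (t * c⁻¹) (by positivity)
    simp only [smul_add, smul_smul, mul_inv_cancel₀ hc.ne', one_smul] at this
    rw [show c * (t * c⁻¹) = t by field_simp] at this
    simpa only [mk_fst, mk_snd, mul_assoc] using this
  · intro h y t ht
    have := h (c • y) (c * t) (by positivity)
    simp only [mk_fst, mk_snd] at this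
    rw [show c * t * (c⁻¹ * v.snd) = t * v.snd by field_simp] at this
    simpa only [smul_add, smul_smul] using this

def D (f : E → ℝ) : Set E := {x | ∃ s, mk x s ∈ K f}

def C0 (f : E → ℝ) : Set (V E) := {v | v.fst ∈ closure (D f) ∧ 0 ≤ v.snd}

def Lt (f : E → ℝ) : Submodule ℝ (V E) where
  carrier := {v | v ∈ K f ∧ -v ∈ K f}
  add_mem' := fun ha hb => ⟨Kadd ha.1 hb.1, by rw [neg_add]; exact Kadd ha.2 hb.2⟩
  zero_mem' := ⟨Kup f le_rfl, by rw [neg_zero]; exact Kup f le_rfl⟩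
  smul_mem' := fun r v hv => by
    rcases le_total 0 r with h | h
    · exact ⟨Ksmul hv.1 h, by rw [← smul_neg]; exact Ksmul hv.2 h⟩
    · refine ⟨?_, by rw [← neg_smul]; exact Ksmul hv.1 (neg_nonneg.2 h)⟩
      simpa using Ksmul hv.2 (neg_nonneg.2 h)

theorem stepB [FiniteDimensional ℝ E] (f : E → ℝ) (hf : Continuous f) (A : ℝ → V E ≃ₗᵢ[ℝ] V E)
    (hA : ∀ c, 0 < c → ∀ v, v ∈ K f ↔ A c v ∈ K fun x => f (c • x)) :
    ∃ B : V E ≃ₗᵢ[ℝ] V E, ∀ v, v ∈ K f ↔ B v ∈ C0 f := by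
  haveI : ProperSpace (V E →L[ℝ] V E) := FiniteDimensional.proper ℝ (V E →L[ℝ] V E)
  obtain ⟨a, -, ψ, hψ, ha⟩ := tendsto_subseq_of_bounded (Metric.isBounded_closedBall (x := 0) (r := 1))
    (x := fun k : ℕ => (A (1 / ((k : ℝ) + 1))).toLinearIsometry.toContinuousLinearMap)
    fun k => by
      exact mem_closedBall_zero_iff.2
        (A (1 / ((k : ℝ) + 1))).toLinearIsometry.norm_toContinuousLinearMap_le
  set c : ℕ → ℝ := fun k => 1 / ((ψ k : ℝ) + 1) with hc
  have c0 : ∀ k, 0 < c k := fun k => by simp only [hc]; positivity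
  have c1 : Tendsto c atTop (𝓝 0) := tendsto_one_div_add_atTop_nhds_zero_nat.comp hψ.tendsto_atTop
  have pt : ∀ v, Tendsto (fun k => A (c k) v) atTop (𝓝 (a v)) := fun v =>
    ((ContinuousLinearMap.apply ℝ (V E) v).continuous.tendsto a).comp ha
  have nm : ∀ v, ‖a v‖ = ‖v‖ := fun v => tendsto_nhds_unique (pt v).norm (by simp)
  let B := (⟨a, nm⟩ : V E →ₗᵢ[ℝ] V E).toLinearIsometryEquiv rfl
  have hB : ∀ v, B v = a v := fun v => rfl
  refine ⟨B, fun v => ⟨fun hv => ?_, fun hv => ?_⟩⟩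
  · have m := fun k => (Kc f (c0 k) _).1 ((hA _ (c0 k) v).1 hv)
    have t1 := ((WithLp.continuous_fst 2 E ℝ).tendsto _).comp (pt v)
    have t2 := ((WithLp.continuous_snd 2 E ℝ).tendsto _).comp (pt v)
    refine ⟨mem_closure_of_tendsto t1 (Eventually.of_forall fun k => ⟨_, m k⟩), ?_⟩
    have t3 := c1.mul (((hf.tendsto _).comp t1).sub_const (f 0))
    rw [zero_mul] at t3
    refine le_of_tendsto_of_tendsto' t3 t2 fun k => ?_
    have := m k 0 1 zero_le_one
    simp only [mk_fst, mk_snd, zero_add, one_smul, one_mul] at this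
    simp only [Function.comp]
    rw [← le_div_iff₀' (c0 k), div_eq_inv_mul]
    linarith
  · have h1 : D f ⊆ {x | B.symm (mk x (B v).snd) ∈ K f} := by
      rintro x ⟨σ, hσ⟩
      have t1 : Tendsto (fun k => mk x (c k * σ + (B v).snd)) atTop (𝓝 (mk x (0 * σ + (B v).snd))) :=
        ((cmk (a := fun _ : ℝ => x) (b := fun r => r * σ + (B v).snd) continuous_const
          (by fun_prop)).tendsto 0).comp c1
      rw [zero_mul, zero_add] at t1
      show B.symm (mk x (B v).snd) ∈ K f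
      refine (Kcl hf).mem_of_tendsto (b := atTop)
        (f := fun k => (A (c k)).symm (mk x (c k * σ + (B v).snd))) ?_ (Eventually.of_forall fun k => ?_)
      · rw [tendsto_iff_norm_sub_tendsto_zero]
        have t2 := (t1.sub (pt (B.symm (mk x (B v).snd)))).norm
        rw [← hB, B.apply_symm_apply, sub_self, norm_zero] at t2
        refine t2.congr fun k => ?_
        symm
        rw [← (A (c k)).norm_map, map_sub, LinearIsometryEquiv.apply_symm_apply]
      · rw [hA _ (c0 k), LinearIsometryEquiv.apply_symm_apply, Kc f (c0 k)]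
        have := Kadd hσ (Kup f (mul_nonneg (inv_pos.2 (c0 k)).le hv.2))
        convert this using 1
        refine vext (by simp) ?_
        have := (c0 k).ne'
        simp only [mk_snd, WithLp.add_snd]; field_simp
    have h2 := closure_minimal h1 ((Kcl hf).preimage
      (B.symm.continuous.comp (cmk continuous_id continuous_const))) hv.1
    have : mk (B v).fst (B v).snd = B v := rfl
    simpa [this] using h2

theorem stepC [FiniteDimensional ℝ E] (f : E → ℝ) (B : V E ≃ₗᵢ[ℝ] V E)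
    (hB : ∀ v, v ∈ K f ↔ B v ∈ C0 f) {x : E} (h1 : x ∈ D f) (h2 : -x ∈ D f) :
    ∃ v ∈ Lt f, v.fst = x := by
  let P : V E →ₗ[ℝ] V E :=
    { toFun := fun v => B.symm (mk v.fst 0)
      map_add' := fun v w => by rw [← map_add]; congr 1; exact vext rfl (by simp)
      map_smul' := fun r v => by rw [← map_smul]; congr 1; exact vext rfl (by simp) }
  have hP : ∀ y, y ∈ D f → -y ∈ D f → B.symm (mk y 0) ∈ Lt f := fun y a b =>
    ⟨(hB _).2 (by rw [B.apply_symm_apply]; exact ⟨subset_closure a, le_rfl⟩),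
      (hB _).2 (by rw [map_neg, B.apply_symm_apply]; exact ⟨subset_closure b, by simp⟩)⟩
  have hm : ∀ v ∈ Lt f, P v ∈ Lt f := fun v hv => hP _ ⟨v.snd, hv.1⟩ ⟨(-v).snd, hv.2⟩
  have hi : Injective (P.restrict hm) := by
    rw [injective_iff_map_eq_zero]
    intro v hv
    have h0 : B.symm (mk v.1.fst 0) = 0 := congrArg Subtype.val hv
    have h3 : v.1.fst = 0 := congrArg WithLp.fst ((map_eq_zero_iff _ B.symm.injective).1 h0)
    have a := v.2.1 0 1 zero_le_one
    have b := v.2.2 0 1 zero_le_one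
    simp only [h3, WithLp.neg_fst, WithLp.neg_snd, neg_zero, smul_zero, add_zero] at a b
    exact Subtype.ext (vext h3 (by simp; linarith))
  obtain ⟨v, hv⟩ := LinearMap.injective_iff_surjective.1 hi ⟨_, hP x h1 h2⟩
  have h4 : B.symm (mk v.1.fst 0) = B.symm (mk x 0) := congrArg Subtype.val hv
  exact ⟨v.1, v.2, congrArg WithLp.fst (B.symm.injective h4)⟩

theorem stepD [FiniteDimensional ℝ E] (f : E → ℝ) (B : V E ≃ₗᵢ[ℝ] V E)
    (hB : ∀ v, v ∈ K f ↔ B v ∈ C0 f) {c : ℝ} (hc : 0 < c) (A : V E ≃ₗᵢ[ℝ] V E)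
    (hA : ∀ v, v ∈ K f ↔ A v ∈ K fun x => f (c • x)) :
    ∃ u ∈ S (K fun x => f (c • x)), 0 < u.snd := by
  by_contra h
  push Not at h
  have h0 : ∀ u ∈ S (K fun x => f (c • x)), u.snd = 0 := fun u hu => by
    have := (hu.2.2 _ (Kup _ zero_le_one)).1
    rw [inn] at this
    simp at this
    exact le_antisymm (h u hu) this
  have h1 : ∀ u ∈ S (K fun x => f (c • x)), u ∈ S (C0 f) := fun u hu => by
    refine ⟨hu.1, ⟨subset_closure ⟨_, (Kc f hc u).1 hu.2.1⟩, (h0 u hu).ge⟩, fun v hv => ?_⟩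
    have a : D f ⊆ {x | 0 ≤ ⟪x, u.fst⟫} ∩ {x | x - ⟪x, u.fst⟫ • u.fst ∈ closure (D f)} := by
      rintro x ⟨s, hs⟩
      have : mk x (c * s) ∈ K fun x => f (c • x) := by
        rw [Kc f hc]; simpa [hc.ne'] using hs
      obtain ⟨b1, b2⟩ := hu.2.2 _ this
      rw [inn] at b1 b2
      simp only [mk_fst, mk_snd, h0 u hu, mul_zero, add_zero] at b1 b2
      exact ⟨b1, subset_closure ⟨_, (Kc f hc _).1 b2⟩⟩
    obtain ⟨b1, b2⟩ := closure_minimal a ((isClosed_le continuous_const (by fun_prop)).inter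
      (isClosed_closure.preimage (by fun_prop))) hv.1
    rw [inn, h0 u hu, mul_zero, add_zero]
    exact ⟨b1, b2, by simpa [h0 u hu] using hv.2⟩
  have h2 : mk (0 : E) 1 ∈ S (C0 f) := by
    refine ⟨by simp [mk], ⟨subset_closure ⟨0, Kup f le_rfl⟩, by simp⟩, fun v hv => ?_⟩
    rw [inn]
    refine ⟨by simpa using hv.2, by simpa using hv.1, by simp⟩
  have h3 : ∀ u ∈ S (C0 f), (B.symm.trans A) u ∈ S (K fun x => f (c • x)) := fun u hu =>
    Smap _ (fun v => by rw [LinearIsometryEquiv.trans_apply, ← hA, hB, B.apply_symm_apply]) hu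
  obtain ⟨u, hu, e⟩ := (((Sfin (C0 f)).injOn_iff_bijOn_of_mapsTo
    (f := B.symm.trans A) fun u hu => h1 _ (h3 u hu)).1 (B.symm.trans A).injective.injOn).surjOn h2
  have := h0 _ (h3 u hu)
  rw [e] at this
  simp at this

theorem Ltc (f : E → ℝ) {c : ℝ} (hc : 0 < c) (v : V E) :
    v ∈ Lt (fun x => f (c • x)) ↔ mk v.fst (c⁻¹ * v.snd) ∈ Lt f := by
  have : -mk v.fst (c⁻¹ * v.snd) = mk (-v).fst (c⁻¹ * (-v).snd) := vext rfl (by simp)
  show _ ∧ _ ↔ _ ∧ _
  rw [Kc f hc, Kc f hc, this]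

theorem Sperp {g : E → ℝ} {u : V E} (hu : u ∈ S (K g)) {v : V E} (hv : v ∈ Lt g) : ⟪v, u⟫ = 0 := by
  have a := (hu.2.2 v hv.1).1
  have b := (hu.2.2 _ hv.2).1
  rw [inner_neg_left] at b
  linarith

theorem stepE [FiniteDimensional ℝ E] (f : E → ℝ) (B : V E ≃ₗᵢ[ℝ] V E)
    (hB : ∀ v, v ∈ K f ↔ B v ∈ C0 f) (u : ℝ → V E)
    (hu : ∀ c, 0 < c → u c ∈ S (K fun x => f (c • x)) ∧ 0 < (u c).snd) :
    ∃ b : E, (∃ v ∈ Lt f, v.fst = b) ∧ (∀ v ∈ Lt f, v.snd = ⟪b, v.fst⟫) ∧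
      ∀ c, 0 < c → (u c).fst = -(c * (u c).snd) • b := by
  have h1 : ∀ c, 0 < c → ∃ v ∈ Lt f, v.fst = (u c).fst := fun c hc => by
    obtain ⟨a, s⟩ := hu c hc
    refine stepC f B hB ⟨_, (Kc f hc _).1 a.2.1⟩ ?_
    have b := (Kc f hc _).1 (Ksmul (a.2.2 _ (Kup _ zero_le_one)).2 (inv_pos.2 s).le)
    refine ⟨_, by convert b using 2; simp [smul_smul, s.ne']⟩
  have h2 : ∀ c, 0 < c → ∀ v ∈ Lt f, ⟪v.fst, (u c).fst⟫ + c * v.snd * (u c).snd = 0 := by
    intro c hc v hv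
    have : mk v.fst (c * v.snd) ∈ Lt fun x => f (c • x) := by
      rw [Ltc f hc, mk_snd, inv_mul_cancel_left₀ hc.ne']; exact hv
    have := Sperp (hu c hc).1 this
    rwa [inn] at this
  have s1 := (hu 1 one_pos).2
  obtain ⟨w, hw, ew⟩ := h1 1 one_pos
  have h3 : ∀ v ∈ Lt f, v.snd = ⟪-((u 1).snd)⁻¹ • (u 1).fst, v.fst⟫ := fun v hv => by
    have := h2 1 one_pos v hv
    rw [real_inner_smul_left, real_inner_comm]
    field_simp
    linarith
  refine ⟨-((u 1).snd)⁻¹ • (u 1).fst, ⟨_, (Lt f).smul_mem (-((u 1).snd)⁻¹) hw, by simp [ew]⟩, h3,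
    fun c hc => ?_⟩
  obtain ⟨v, hv, ev⟩ := h1 c hc
  have hy := (Lt f).add_mem hv ((Lt f).smul_mem (c * (u c).snd * -((u 1).snd)⁻¹) hw)
  have a := h2 c hc _ hy
  rw [h3 _ hy] at a
  generalize hb : -((u 1).snd)⁻¹ • (u 1).fst = b at *
  have e : (v + (c * (u c).snd * -((u 1).snd)⁻¹) • w).fst = (u c).fst + (c * (u c).snd) • b := by
    rw [← hb, smul_smul, ← ev, ← ew]; rfl
  rw [e] at a
  have : ⟪(u c).fst + (c * (u c).snd) • b, (u c).fst + (c * (u c).snd) • b⟫ = 0 := by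
    rw [inner_add_right, real_inner_smul_right, real_inner_comm b]; linarith
  rw [neg_smul, ← add_eq_zero_iff_eq_neg]
  exact inner_self_eq_zero.1 this

theorem stepN [FiniteDimensional ℝ E] (L : Submodule ℝ E) (B : V E ≃ₗᵢ[ℝ] V E)
    (h1 : ∀ v : V E, v.fst ∈ L → (B v).fst ∈ L) (h2 : ∀ v : V E, v.fst ∈ L → (B.symm v).fst ∈ L)
    (v : V E) : ‖(B v).fst - L.starProjection (B v).fst‖ = ‖v.fst - L.starProjection v.fst‖ := by
  set z : V E := mk (v.fst - L.starProjection v.fst) 0 with hz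
  have a : ∀ w : V E, w.fst ∈ L → ⟪w, B z⟫ = 0 := fun w hw => by
    rw [← B.apply_symm_apply w, B.inner_map_map, inn]
    simpa [hz] using L.sub_starProjection_mem_orthogonal v.fst _ (h2 w hw)
  have a1 : (B z).snd = 0 := by simpa [inn] using a (mk 0 1) (by simp)
  have a2 : (B z).fst ∈ Lᗮ := fun l hl => by simpa [inn] using a (mk l 0) hl
  have a3 : L.starProjection (B v).fst = (B (v - z)).fst :=
    Submodule.eq_starProjection_of_mem_orthogonal' (h1 _ (by simp [hz])) a2 (by simp)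
  have a4 : ‖B z‖ = ‖(B z).fst‖ := by
    rw [show B z = WithLp.toLp 2 ((B z).fst, 0) from vext rfl a1]; simp
  have a5 : ‖z‖ = ‖v.fst - L.starProjection v.fst‖ := by simp [hz, mk]
  rw [a3, ← a5, ← B.norm_map, a4]
  simp

def R (π : E → E) (h : E → ℝ) (r l : ℝ) : Prop :=
  ∃ σ : E → E, ∀ x y, ‖π (σ x - σ y)‖ = r * ‖π (x - y)‖ ∧ |h (σ x) - h (σ y)| = l * |h x - h y|

omit [InnerProductSpace ℝ E] in
theorem Rmul {π : E → E} {h : E → ℝ} {r l r' l' : ℝ} (a : R π h r l) (b : R π h r' l') :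
    R π h (r * r') (l * l') := by
  obtain ⟨σ, a⟩ := a
  obtain ⟨τ, b⟩ := b
  exact ⟨σ ∘ τ, fun x y => ⟨by simp only [comp, (a _ _).1, (b _ _).1, mul_assoc],
    by simp only [comp, (a _ _).2, (b _ _).2, mul_assoc]⟩⟩

theorem Rfin [CompleteSpace E] (π : E →L[ℝ] E) (hπ : ∀ x, ‖π x‖ ≤ ‖x‖)
    (h : E → ℝ) (hc : Continuous h) (hh : ∀ x, h (π x) = h x) {r l : ℝ} (r0 : 0 ≤ r) (r1 : r < 1)
    (l1 : 1 ≤ l) (a : R π h r l) (x y : E) : h x = h y := by
  obtain ⟨σ, a⟩ := a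
  have ct : ContractingWith ⟨r, r0⟩ fun x => π (σ x) := by
    refine ⟨r1, LipschitzWith.of_dist_le_mul fun x y => ?_⟩
    rw [dist_eq_norm, dist_eq_norm, ← map_sub, (a x y).1]
    exact mul_le_mul_of_nonneg_left (hπ _) r0
  have t1 := (hc.tendsto _).comp (ct.tendsto_iterate_fixedPoint x)
  have t2 := (hc.tendsto _).comp (ct.tendsto_iterate_fixedPoint y)
  have t3 := (t1.sub t2).abs
  rw [sub_self, abs_zero] at t3
  have : |h x - h y| ≤ 0 := ge_of_tendsto' t3 fun k => by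
    induction k with
    | zero => simp
    | succ k ih =>
      simp only [comp, iterate_succ_apply', hh, (a _ _).2] at ih ⊢
      nlinarith [abs_nonneg (h x - h y)]
  exact sub_eq_zero.1 (abs_nonpos_iff.1 this)

theorem main [FiniteDimensional ℝ E] (f : E → ℝ) (hf : Continuous f)
    (H : ∀ c : ℝ, 0 < c → ∃ φ : V E ≃ᵢ V E, ∀ p : V E,
      p.snd = f p.fst ↔ (φ p).snd = f (c • (φ p).fst)) : ∃ a : ℝ, ∃ b : E, ∀ x, f x = a + ⟪b, x⟫ := by
  choose! φ hφ using H
  have H2 := fun c (hc : 0 < c) => stepA f (fun x => f (c • x)) hf (by fun_prop) (φ c) (hφ c hc)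
  choose! A hA ε hε hφA using H2
  obtain ⟨B, hB⟩ := stepB f hf A hA
  have H3 := fun c (hc : 0 < c) => stepD f B hB hc (A c) (hA c hc)
  choose! u hu hs using H3
  obtain ⟨b, hb1, hb2, hb3⟩ := stepE f B hB u fun c hc => ⟨hu c hc, hs c hc⟩
  set L : Submodule ℝ E := (Lt f).map (WithLp.fstₗ 2 ℝ E ℝ) with hL
  set π := Lᗮ.starProjection with hπ
  have eπ : ∀ x, π x = x - L.starProjection x := fun x => L.starProjection_orthogonal_val x
  set h : E → ℝ := fun x => f x - ⟪b, x⟫ with hh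
  have hL1 : ∀ l ∈ L, ∀ y, h (y + l) = h y := by
    rintro _ ⟨v, hv, rfl⟩ y
    have a1 := hv.1 y 1 zero_le_one
    have a2 := hv.2 (y + v.fst) 1 zero_le_one
    simp only [one_smul, one_mul, WithLp.neg_fst, WithLp.neg_snd, add_neg_cancel_right] at a1 a2
    show f (y + v.fst) - ⟪b, y + v.fst⟫ = f y - ⟪b, y⟫
    rw [inner_add_right, ← hb2 v hv]; linarith
  have iu : ∀ c, 0 < c → ∀ v : V E, ⟪v, u c⟫ = (u c).snd * (v.snd - c * ⟪b, v.fst⟫) := fun c hc v => by
    rw [inn, hb3 c hc, real_inner_smul_right, real_inner_comm]; ring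
  have nu : ∀ c, 0 < c → (u c).snd ^ 2 * (1 + c ^ 2 * ‖b‖ ^ 2) = 1 := fun c hc => by
    have a := iu c hc (u c)
    rw [real_inner_self_eq_norm_sq, (hu c hc).1, hb3 c hc, real_inner_smul_right,
      real_inner_self_eq_norm_sq] at a
    linarith
  have uL : ∀ c, 0 < c → (u c).fst ∈ L := fun c hc => by
    rw [hb3 c hc]; exact L.smul_mem _ hb1
  have BL : ∀ c, 0 < c → ∀ d, 0 < d → (A c).symm (u c) = (A d).symm (u d) → ∀ v : V E, v.fst ∈ L →
      (A d ((A c).symm v)).fst ∈ L := by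
    intro c hc d hd e v hv
    obtain ⟨w, hw, ew⟩ := L.sub_mem hv (L.smul_mem ⟪v, u c⟫ (uL c hc))
    have a1 : v - ⟪v, u c⟫ • u c ∈ Lt fun x => f (c • x) := by
      rw [Ltc f hc]
      suffices e : mk (v - ⟪v, u c⟫ • u c).fst (c⁻¹ * (v - ⟪v, u c⟫ • u c).snd) = w by rwa [e]
      have ew' : (v - ⟪v, u c⟫ • u c).fst = w.fst := ew.symm
      refine vext ew' ?_
      have a2 : ⟪v - ⟪v, u c⟫ • u c, u c⟫ = 0 := by
        rw [inner_sub_left, real_inner_smul_left, real_inner_self_eq_norm_sq, (hu c hc).1]; ring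
      rw [iu c hc] at a2
      have a3 := sub_eq_zero.1 ((mul_eq_zero.1 a2).resolve_left (hs c hc).ne')
      rw [mk_snd, a3, inv_mul_cancel_left₀ hc.ne', hb2 w hw, ew']
    have a4 : A d ((A c).symm (v - ⟪v, u c⟫ • u c)) ∈ Lt fun x => f (d • x) :=
      ⟨(hA d hd _).1 ((hA c hc _).2 (by simpa using a1.1)), by
        rw [← map_neg, ← map_neg]; exact (hA d hd _).1 ((hA c hc _).2 (by simpa using a1.2))⟩
    have a5 : (A d ((A c).symm (v - ⟪v, u c⟫ • u c))).fst ∈ L := ⟨_, (Ltc f hd _).1 a4, rfl⟩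
    rw [map_sub, map_smul, e, map_sub, map_smul, LinearIsometryEquiv.apply_symm_apply] at a5
    simpa using L.add_mem a5 (L.smul_mem ⟪v, u c⟫ (uL d hd))
  have pr : ∀ c, 0 < c → ∀ d, 0 < d → (A c).symm (u c) = (A d).symm (u d) →
      R π h (d / c) ((u c).snd / (u d).snd) := by
    intro c hc d hd e
    set P : E → V E := fun x => mk (c⁻¹ • x) (f x) with hP
    set Q : E → V E := fun x => φ d ((φ c).symm (P x)) with hQ
    have q1 : ∀ x, (Q x).snd = f (d • (Q x).fst) := fun x => (hφ d hd _).1 ((hφ c hc _).2 (by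
      simp [hP, smul_smul, hc.ne']))
    have e2 : ε c * ε c = 1 := by have := hε c hc; rw [← abs_mul_abs_self, this]; norm_num
    have q2 : ∀ x y, Q x - Q y = (ε d * ε c) • A d ((A c).symm (P x - P y)) := fun x y => by
      have a := hφA c hc ((φ c).symm (P x)) ((φ c).symm (P y))
      rw [IsometryEquiv.apply_symm_apply, IsometryEquiv.apply_symm_apply] at a
      rw [hQ, hφA d hd, a, map_smul, LinearIsometryEquiv.symm_apply_apply, map_smul, smul_smul,
        mul_assoc, e2, mul_one]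
    have e3 : |ε d * ε c| = 1 := by rw [abs_mul, hε c hc, hε d hd, one_mul]
    refine ⟨fun x => d • (Q x).fst, fun x y => ⟨?_, ?_⟩⟩
    · have a := stepN L ((A c).symm.trans (A d)) (BL c hc d hd e) (BL d hd c hc e.symm) (P x - P y)
      rw [← eπ, ← eπ] at a
      have a2 : (P x - P y).fst = c⁻¹ • (x - y) := by simp [hP, smul_sub]
      rw [← smul_sub, ← WithLp.sub_fst, q2, WithLp.smul_fst, map_smul, map_smul, norm_smul, norm_smul,
        Real.norm_eq_abs, Real.norm_eq_abs, e3, abs_of_pos hd, one_mul]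
      rw [a2, map_smul, norm_smul, Real.norm_eq_abs, abs_of_pos (inv_pos.2 hc)] at a
      rw [div_eq_mul_inv, mul_assoc, ← a]; rfl
    · have a1 : ⟪Q x - Q y, u d⟫ = (u d).snd * (h (d • (Q x).fst) - h (d • (Q y).fst)) := by
        rw [iu d hd]
        simp only [hh, WithLp.sub_fst, WithLp.sub_snd, q1, inner_sub_right, real_inner_smul_right]
        ring
      have a2 : ⟪P x - P y, u c⟫ = (u c).snd * (h x - h y) := by
        rw [iu c hc]
        simp only [hh, hP, WithLp.sub_fst, WithLp.sub_snd, mk_fst, mk_snd, inner_sub_right,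
          real_inner_smul_right]
        field_simp
        ring
      have a3 : ⟪A d ((A c).symm (P x - P y)), u d⟫ = ⟪P x - P y, u c⟫ := by
        rw [← (A d).apply_symm_apply (u d), (A d).inner_map_map, ← e, (A c).symm.inner_map_map]
      rw [q2, real_inner_smul_left, a3, a2] at a1
      have a4 := congrArg abs a1
      rw [abs_mul, e3, one_mul, abs_mul, abs_mul, abs_of_pos (hs c hc), abs_of_pos (hs d hd)] at a4
      rw [div_mul_eq_mul_div, eq_div_iff (hs d hd).ne', a4, mul_comm]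
  haveI := (Sfin (K f)).to_subtype
  have ty : ∀ c, 0 < c → (A c).symm (u c) ∈ S (K f) := fun c hc =>
    Smap _ (fun v => by rw [hA c hc, LinearIsometryEquiv.apply_symm_apply]) (hu c hc)
  have pg : ∀ c : ℕ → ℝ, (∀ k, 0 < c k) → ∃ k₀, ∀ N : ℕ, ∃ k, N < k ∧
      (A (c k₀)).symm (u (c k₀)) = (A (c k)).symm (u (c k)) := fun c hc => by
    obtain ⟨y, hy⟩ := Finite.exists_infinite_fiber fun k => (⟨_, ty _ (hc k)⟩ : S (K f))
    have hy' := Set.infinite_coe_iff.1 hy
    obtain ⟨k₀, h0⟩ := hy'.nonempty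
    refine ⟨k₀, fun N => ?_⟩
    obtain ⟨k, h1, h2⟩ := hy'.exists_gt N
    exact ⟨k, h2, (congrArg Subtype.val h0).trans (congrArg Subtype.val h1).symm⟩
  obtain ⟨k2, h2⟩ := pg (fun k => 1 / ((k : ℝ) + 1)) fun k => by positivity
  obtain ⟨k3, h3⟩ := pg (fun k => (k : ℝ) + 1) fun k => by positivity
  set c2 : ℝ := 1 / ((k2 : ℝ) + 1) with hc2
  set c3 : ℝ := (k3 : ℝ) + 1 with hc3
  have p2 : 0 < c2 := by positivity
  have p3 : 0 < c3 := by positivity
  obtain ⟨N, hN⟩ := exists_nat_ge (c2 ^ 2 + c3 ^ 2 + c2 ^ 2 * c3 ^ 2 * ‖b‖ ^ 2)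
  obtain ⟨k4, l4, e4⟩ := h3 N
  set c4 : ℝ := (k4 : ℝ) + 1 with hc4
  have p4 : 0 < c4 := by positivity
  obtain ⟨M, hM⟩ := exists_nat_ge (c4 / (c3 * c2))
  obtain ⟨k1, l1, e1⟩ := h2 M
  set c1 : ℝ := 1 / ((k1 : ℝ) + 1) with hc1
  have p1 : 0 < c1 := by positivity
  have hR := Rmul (pr c2 p2 c1 p1 e1) (pr c3 p3 c4 p4 e4)
  have := Rfin π (fun x => Lᗮ.norm_starProjection_apply_le x) h
    (by simp only [hh]; fun_prop) (fun x => by
      rw [eπ, sub_eq_add_neg, hL1 _ (L.neg_mem (L.starProjection_apply_mem x))])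
    (by positivity) ?_ ?_ hR
  · exact ⟨f 0, b, fun x => by have := this x 0; simp only [hh, inner_zero_right] at this; linarith⟩
  · have : (M : ℝ) < k1 := by exact_mod_cast l1
    rw [div_le_iff₀ (by positivity)] at hM
    rw [div_mul_div_comm, div_lt_one (by positivity), hc1, div_mul_eq_mul_div, one_mul,
      div_lt_iff₀ (by positivity)]
    nlinarith [mul_pos p2 p3]
  · have s1 := hs c1 p1
    have s2 := hs c2 p2
    have s3 := hs c3 p3
    have s4 := hs c4 p4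
    have n1 := nu c1 p1
    have n2 := nu c2 p2
    have n3 := nu c3 p3
    have n4 := nu c4 p4
    have : (N : ℝ) < k4 := by exact_mod_cast l4
    have b0 : 0 ≤ ‖b‖ ^ 2 := by positivity
    have g1 : c2 ^ 2 + c3 ^ 2 + c2 ^ 2 * c3 ^ 2 * ‖b‖ ^ 2 ≤ c4 ^ 2 := by
      have : (0 : ℝ) ≤ k4 := by positivity
      nlinarith
    have g2 : (1 + c2 ^ 2 * ‖b‖ ^ 2) * (1 + c3 ^ 2 * ‖b‖ ^ 2) ≤
        (1 + c1 ^ 2 * ‖b‖ ^ 2) * (1 + c4 ^ 2 * ‖b‖ ^ 2) := by
      have := mul_le_mul_of_nonneg_right g1 b0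
      have : 0 ≤ c1 ^ 2 * ‖b‖ ^ 2 * (1 + c4 ^ 2 * ‖b‖ ^ 2) := by positivity
      nlinarith
    rw [div_mul_div_comm, one_le_div (by positivity), ← sq_le_sq₀ (by positivity) (by positivity)]
    generalize 1 + c1 ^ 2 * ‖b‖ ^ 2 = a1 at *
    generalize 1 + c2 ^ 2 * ‖b‖ ^ 2 = a2 at *
    generalize 1 + c3 ^ 2 * ‖b‖ ^ 2 = a3 at *
    generalize 1 + c4 ^ 2 * ‖b‖ ^ 2 = a4 at *
    have := mul_le_mul_of_nonneg_left g2
      (show 0 ≤ ((u c1).snd * (u c4).snd) ^ 2 * ((u c2).snd * (u c3).snd) ^ 2 by positivity)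
    calc ((u c1).snd * (u c4).snd) ^ 2 = ((u c1).snd * (u c4).snd) ^ 2 *
          (((u c2).snd ^ 2 * a2) * ((u c3).snd ^ 2 * a3)) := by rw [n2, n3]; ring
      _ ≤ ((u c2).snd * (u c3).snd) ^ 2 * (((u c1).snd ^ 2 * a1) * ((u c4).snd ^ 2 * a4)) := by
          linarith
      _ = _ := by rw [n1, n4]; ring

end Pool.Agent.H.MP_530d8e_an
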